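import Pool.Agent.Lib.MP_dabcc9_gt.Final2

/-! The missing boundary of the Blaschke diagram near the ball: first order exactly, second order with constants. -/

open MeasureTheory Metric Set Pool.Agent.Lib.MP_dabcc9_gt

namespace Pool.Agent.Results.MP_dabcc9_gt.BallEnd

theorem result :
    ∃ η : ℝ, 0 < η ∧
      (∀ K : Set E3, IsBody K → 1 - η < bX K →
        6 * bX K - 5 + 19 / 5 * (1 - bX K) ^ 2 ≤ bY K) ∧
      ∀ x : ℝ, 1 - η < x → x < 1 →
        ∃ K : Set E3, IsBody K ∧ bX K = x ∧ bY K ≤ 6 * x - 5 + 5 * (1 - x) ^ 2 :=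
  second_order

end Pool.Agent.Results.MP_dabcc9_gt.BallEnd
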