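import Pool.Agent.Lib.MP_dabcc9_gt.Final4

/-! The missing boundary of the Blaschke diagram near the disc: its exact slope, and it lies strictly below the tangent. -/

open MeasureTheory Metric Set Pool.Agent.Lib.MP_dabcc9_gt

namespace Pool.Agent.Results.MP_dabcc9_gt.DiscEnd

theorem result :
    (∀ ε : ℝ, 0 < ε → ∃ η : ℝ, 0 < η ∧ ∀ K : Set E3, IsBody K →
      bX K < 8 / Real.pi ^ 2 + η →
        bX K - 8 / Real.pi ^ 2 ≤ ((Real.pi - 2) / 6 + ε) * bY K) ∧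
    ∃ η : ℝ, 0 < η ∧ ∀ x : ℝ, 8 / Real.pi ^ 2 < x → x < 8 / Real.pi ^ 2 + η →
      ∃ K : Set E3, IsBody K ∧ bX K = x ∧
        bY K ≤ 6 / (Real.pi - 2) * (x - 8 / Real.pi ^ 2)
          - 2 / 3 * (x - 8 / Real.pi ^ 2) ^ 2 :=
  ⟨disc_lower, disc_upper_bodies⟩

end Pool.Agent.Results.MP_dabcc9_gt.DiscEnd
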