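import Pool.Agent.Lib.MP_dabcc9_gt.LimB

/-! The missing boundary of the Blaschke diagram: a bound for all bodies. -/

open MeasureTheory Metric Set Pool.Agent.Lib.MP_dabcc9_gt

namespace Pool.Agent.Results.MP_dabcc9_gt.GlobalBound

theorem result :
    ∀ K : Set E3, IsBody K →
      DifferentiableWithinAt ℝ (fun t => vol (cthickening t K)) (Ici 0) 0 ∧
        6 * bX K - 5 + (1 - bX K) ^ 2 / 32000 ≤ bY K :=
  fun _ hK => ⟨(body_values hK).1, (body_values hK).2.1⟩

end Pool.Agent.Results.MP_dabcc9_gt.GlobalBound
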