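import Pool.Agent.Lib.MP_dabcc9_gtW.WMain

/-! No extremal body of the Blaschke diagram (least `y` for its `x`) has a spherical part: a convex body `K` in a ball, not the ball,
which contains an open part of the sphere, is not extremal. -/

open MeasureTheory Metric Set Pool.Agent.Lib.MP_dabcc9_gt

namespace Pool.Agent.Results.MP_dabcc9_gt.NoSphericalPart

theorem result (K : Set E3) (hK : IsBody K) (a : E3) (R : ℝ) (h : K ⊆ closedBall a R)
    (hne : K ≠ closedBall a R) (U : Set E3) (hU : IsOpen U) (h1 : (U ∩ sphere a R).Nonempty)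
    (h2 : U ∩ sphere a R ⊆ K) :
    ∃ K' : Set E3, IsBody K' ∧ bX K' = bX K ∧ bY K' < bY K :=
  Pool.Agent.Lib.MP_dabcc9_gtW.main K hK a R h hne U hU h1 h2

end Pool.Agent.Results.MP_dabcc9_gt.NoSphericalPart
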